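import Pool.Agent.H43.Bg2

set_option autoImplicit false

namespace Pool.Agent.Results.MP_12274d_pr.Sharp

open Pool.Agent.H43 Pool.Agent.H43.Bg MeasureTheory ProbabilityTheory Finset unitInterval
open Pool.Agent.H41.GWF (Env Adm Vx tree GW)
open scoped ENNReal Classical

def Sn (p : I) (r : ℕ) : ℕ → Set Om
  | 0 => Set.univ
  | n + 1 => nx (Set.Ioi p) r (Sn p r n)

lemma Sn_meas (p : I) (r n : ℕ) : MeasurableSet (Sn p r n) := by
  induction n with
  | zero => exact .univ
  | succ n ih => exact nx_meas measurableSet_Ioi r ih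

lemma cn_anti {A : Type} {S S' : Set A} (h : S ⊆ S') (k : ℕ) (η : ℕ → A) : cn S' k η ≤ cn S k η :=
  card_le_card (monotone_filter_right _ fun _ _ h1 h2 => h1 (h h2))

lemma Sn_anti (p : I) (r : ℕ) : Antitone (Sn p r) := antitone_nat_of_succ_le fun n => by
  induction n with
  | zero => exact Set.subset_univ _
  | succ n ih => exact fun ω h => ⟨h.1, (cn_anti ih _ _).trans_lt h.2⟩

def Si (p : I) (r : ℕ) : Set Om := ⋂ n, Sn p r n

lemma Si_meas (p : I) (r : ℕ) : MeasurableSet (Si p r) := .iInter (Sn_meas p r)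

lemma Si_sub (p : I) (r : ℕ) : Si p r ⊆ nx (Set.Ioi p) r (Si p r) := fun ω h => by
  have ex : ∀ j, ∃ n, sh [j] ω ∉ Si p r → sh [j] ω ∉ Sn p r n := fun j => by
    by_cases h : sh [j] ω ∈ Si p r
    · exact ⟨0, fun h' => (h' h).elim⟩
    · obtain ⟨n, hn⟩ := not_forall.1 (fun h' => h (Set.mem_iInter.2 h'))
      exact ⟨n, fun _ => hn⟩
  choose n hn using ex
  have := Set.mem_iInter.1 h ((range (ω []).1).sup n + 1)
  refine ⟨this.1, lt_of_le_of_lt (card_le_card fun j hj => ?_) this.2⟩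
  rw [mem_filter] at hj ⊢
  exact ⟨hj.1, fun h' => hn j hj.2 (Sn_anti p r (le_sup hj.1) h')⟩

def NN (p : I) (r : ℕ) : Set Om :=
  {ω | ∀ v, Adm (fun l => (ω l).1) v → sh v ω ∉ nx (Set.Ioi p) 1 (Si p r)}

lemma NN_meas (p : I) (r : ℕ) : MeasurableSet (NN p r) := by
  have a : ∀ v, MeasurableSet {ω : Om | Adm (fun l => (ω l).1) v} := fun v => by
    induction v with
    | nil => exact MeasurableSet.univ
    | cons i l ih =>
      have : Measurable fun ω : Om => (ω l).1 := by fun_prop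
      exact ih.inter (measurableSet_lt measurable_const this)
  simp only [NN, Set.ofPred_forall (p := fun v ω => Adm (fun l => ((ω : Om) l).1) v → _)]
  exact .iInter fun v => (a v).imp (sh_meas v (nx_meas measurableSet_Ioi 1 (Si_meas p r)).compl)

lemma adm_sh {ω : Om} {j : ℕ} (hj : j < (ω []).1) {v : List ℕ}
    (h : Adm (fun l => (sh [j] ω l).1) v) : Adm (fun l => (ω l).1) (v ++ [j]) := by
  induction v with
  | nil => exact ⟨trivial, hj⟩
  | cons i l ih => exact ⟨ih h.1, h.2⟩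

lemma NN_sub (p : I) (r : ℕ) : NN p r ⊆ nx Set.univ 1 (NN p r) := fun ω h => by
  refine ⟨trivial, Nat.lt_one_iff.2 (card_eq_zero.2 (filter_eq_empty_iff.2 fun j hj => ?_))⟩
  refine not_not.2 fun v hv => ?_
  have : sh v (sh [j] ω) = sh (v ++ [j]) ω := funext fun l => by simp [sh]
  rw [this]
  exact h _ (adm_sh (mem_range.1 hj) hv)

lemma NN_null (ξ : Measure ℕ) [IsProbabilityMeasure ξ] (h0 : ξ {0} = 0) (s : ℕ) {b : ℝ}
    (hb : ∫⁻ k, (k : ℝ≥0∞) ∂ξ = ENNReal.ofReal b) (hbs : (s : ℝ) + 2 ≤ b) (p : I)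
    (p0 : 0 < (p : ℝ)) (hp : p < Real.exp (-b / (s + 1))) : PP ξ (NN p (s + 2)) = 0 := by
  obtain ⟨x, x0, x1, hx⟩ := exists_fix ξ s hb (by linarith) p0 hp
  have p1 : 0 < 1 - (p : ℝ) := by
    by_contra h
    rw [ENNReal.ofReal_of_nonpos (not_lt.1 h), zero_mul] at hx
    exact (ENNReal.ofReal_pos.2 x0).not_ge hx
  have a1 : ∀ n, ENNReal.ofReal x ≤ PP ξ (Sn p (s + 2) n) := fun n => by
    induction n with
    | zero => simpa [Sn] using x1
    | succ n ih =>
      rw [Sn, nx_law ξ measurableSet_Ioi _ (Sn_meas ..), volume_Ioi]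
      refine hx.trans (mul_le_mul_right (lintegral_mono fun k => ENNReal.ofReal_le_ofReal
        (Gs_anti _ _ (sub_nonneg.2 measureReal_le_one) ?_ (by linarith))) _)
      have := (ENNReal.ofReal_le_iff_le_toReal (measure_ne_top _ _)).1 ih
      exact sub_le_sub_left this 1
  have a2 : x ≤ (PP ξ).real (Si p (s + 2)) := by
    refine (ENNReal.ofReal_le_iff_le_toReal (measure_ne_top _ _)).1 ?_
    rw [Si, (Sn_anti ..).measure_iInter (fun n => (Sn_meas ..).nullMeasurableSet)
      ⟨0, measure_ne_top _ _⟩]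
    exact le_iInf a1
  have a3 : PP ξ (nx (Set.Ioi p) 1 (Si p (s + 2))) ≠ 0 := by
    rw [nx_law ξ measurableSet_Ioi _ (Si_meas ..), volume_Ioi]
    refine mul_ne_zero (ENNReal.ofReal_pos.2 p1).ne' fun h => ?_
    obtain ⟨k, hk⟩ := ((lintegral_eq_zero_iff Measurable.of_discrete).1 h).exists
    simp only [Gs_one, sub_sub_cancel] at hk
    exact (ENNReal.ofReal_pos.2 (pow_pos (x0.trans_le a2) k)).ne' hk
  have a4 : PP ξ (NN p (s + 2)) < 1 := by
    refine lt_of_le_of_lt (measure_mono (t := (nx (Set.Ioi p) 1 (Si p (s + 2)))ᶜ) fun ω h => ?_) ?_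
    · have := h [] trivial
      rwa [show sh [] ω = ω from funext fun l => by simp [sh]] at this
    · rw [prob_compl_eq_one_sub (nx_meas measurableSet_Ioi 1 (Si_meas ..))]
      exact ENNReal.sub_lt_self ENNReal.one_ne_top one_ne_zero a3
  have a5 := (measure_mono (NN_sub p (s + 2))).trans_eq (nx_law ξ .univ 1 (NN_meas ..))
  simp only [measure_univ, one_mul, Gs_one, sub_sub_cancel,
    ENNReal.ofReal_pow measureReal_nonneg, ofReal_measureReal (measure_ne_top _ _)] at a5
  generalize PP ξ (NN p (s + 2)) = a at a4 a5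
  by_contra a0
  have k1 : ∀ᵐ k ∂ξ, k ≠ 0 := by simpa [ae_iff] using h0
  have k2 := ae_eq_of_ae_le_of_lintegral_le (μ := ξ) (f := fun k => a ^ k) (g := fun _ => a)
    (k1.mono fun k hk => pow_le_of_le_one zero_le a4.le hk)
    (ne_top_of_le_ne_top ENNReal.one_ne_top ((lintegral_mono fun k => pow_le_one₀ zero_le a4.le).trans
      (by simp))) aemeasurable_const (by simpa using a5)
  have k3 : ∀ᵐ k : ℕ ∂ξ, (k : ℝ≥0∞) ≤ 1 := k2.mono fun k hk => by
    by_contra h
    have h2 : 2 ≤ k := by exact_mod_cast (show (1 : ℝ≥0∞) < k from not_le.1 h)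
    have := hk.symm.trans_le (pow_le_pow_right_of_le_one' a4.le h2)
    rw [sq] at this
    exact a4.not_ge ((ENNReal.mul_le_mul_iff_left a0 a4.ne_top).1 ((one_mul a).trans_le this))
  have := lintegral_mono_ae k3
  rw [hb, lintegral_one, measure_univ, ENNReal.ofReal_le_one] at this
  have : (0 : ℝ) ≤ s := by positivity
  linarith

inductive Ft (ω : Om) (S : Set Om) (v : List ℕ) : List ℕ → Prop
  | base : Ft ω S v v
  | step {w : List ℕ} {j : ℕ} : Ft ω S v w → sh (j :: w) ω ∈ S → Ft ω S v (j :: w)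

lemma fort {ζ : Env} {U : List ℕ → I} {p q : I} (hq : q ≤ p) {r : ℕ} (hr : 2 ≤ r)
    (h : Perc (tree ζ) r {v | U v.1 ≤ q}) : (fun l => (ζ l, U l)) ∈ NN p r := by
  intro v hv hS
  set ω : Om := fun l => (ζ l, U l)
  have e : ∀ j w, sh [j] (sh w ω) = sh (j :: w) ω := fun j w => funext fun l => by simp [sh]
  have k : ∀ n (w : Vx ζ), Ft ω (Si p r) v w.1 → w ∉ (infect (tree ζ) r)^[n] {v | U v.1 ≤ q} := by
    intro n
    induction n with
    | zero =>
      rintro ⟨w, hw⟩ h1 h2
      have h2 : U w ≤ q := h2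
      cases h1 with
      | base => exact (hS.1.trans_le (h2.trans hq)).false
      | step _ h3 => exact ((Si_sub p r h3).1.trans_le (h2.trans hq)).false
    | succ n ih =>
      rintro ⟨w, hw⟩ h1 h2
      rw [Function.iterate_succ_apply'] at h2
      refine h2.elim (ih _ h1) fun h2 => ?_
      change (r : ℕ∞) ≤ _ at h2
      rw [← Subtype.val_injective.encard_image] at h2
      have h1 : Ft ω (Si p r) v w := h1
      cases h1 with
      | base =>
        have : _ ≤ ({v.tail} : Set (List ℕ)).encard := h2.trans (Set.encard_le_encard (by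
          rintro _ ⟨z, ⟨⟨i, h3⟩ | ⟨i, h3⟩, h4⟩, rfl⟩
          · refine (ih z ?_ h4).elim
            have h5 := z.2
            rw [h3] at h5 ⊢
            refine .step .base ?_
            rw [← e]
            exact not_not.1 (filter_eq_empty_iff.1 (card_eq_zero.1 (Nat.lt_one_iff.1 hS.2))
              (mem_range.2 h5.2))
          · exact (congrArg List.tail h3).symm))
        rw [Set.encard_singleton] at this
        have : r ≤ 1 := by exact_mod_cast this
        omega
      | @step w j h3 h4 =>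
        have h6 := (Si_sub p r h4).2
        have := h2.trans ((Set.encard_le_encard (t := (fun i => i :: j :: w) ''
          ((range (ζ (j :: w))).filter fun i => sh [i] (sh (j :: w) ω) ∉ Si p r : Finset ℕ)) (by
          rintro _ ⟨z, ⟨⟨i, h7⟩ | ⟨i, h7⟩, h8⟩, rfl⟩
          · have h5 := z.2
            rw [h7] at h5
            refine ⟨i, mem_coe.2 (mem_filter.2 ⟨mem_range.2 h5.2, fun h9 => ih z ?_ h8⟩), h7.symm⟩
            rw [h7]
            exact .step (.step h3 h4) (e .. ▸ h9)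
          · exact (ih z ((List.cons.inj h7).2 ▸ h3) h8).elim)).trans (Set.encard_image_le ..))
        rw [Set.encard_coe_eq_coe_finsetCard] at this
        exact h6.not_ge (by exact_mod_cast this)
  obtain ⟨n, hn⟩ := h ⟨v, hv⟩
  exact k n _ .base hn

theorem result (r : ℕ) (hr : 2 ≤ r) (ξ : Measure ℕ) [IsProbabilityMeasure ξ] (h0 : ξ {0} = 0)
    (b : ℝ) (hb : ∫⁻ k, (k : ℝ≥0∞) ∂ξ = ENNReal.ofReal b) (hbr : (r : ℝ) ≤ b) :
    ∀ᵐ ζ ∂GW ξ, Real.exp (-b / (r - 1)) ≤ pc (tree ζ) r := by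
  obtain ⟨s, rfl⟩ : ∃ s, r = s + 2 := ⟨r - 2, by omega⟩
  push_cast at hbr ⊢
  rw [show (s : ℝ) + 2 - 1 = s + 1 by ring]
  have key : ∀ t : ℚ, ∀ᵐ ζ ∂GW ξ, (t : ℝ) < Real.exp (-b / (s + 1)) → 0 < (t : ℝ) →
      ∀ q : I, (q : ℝ) ≤ t → setBernoulli Set.univ q {A | Perc (tree ζ) (s + 2) A} = 0 := by
    intro t
    by_cases h1 : (t : ℝ) < Real.exp (-b / (s + 1))
    swap
    · exact .of_forall fun _ h => (h1 h).elim
    by_cases h2 : 0 < (t : ℝ)
    swap
    · exact .of_forall fun _ _ h => (h2 h).elim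
    have h3 : (t : ℝ) ≤ 1 := h1.le.trans (Real.exp_le_one_iff.2 (div_nonpos_of_nonpos_of_nonneg
      (by have : (0 : ℝ) ≤ s := by positivity
          linarith) (by positivity)))
    have z := zip_mp (ι := List ℕ) ξ (volume : Measure I)
    have := (z.measure_preimage (NN_meas ⟨t, h2.le, h3⟩ (s + 2)).nullMeasurableSet).trans
      (NN_null ξ h0 s hb hbr ⟨t, h2.le, h3⟩ h2 h1)
    refine (Measure.measure_ae_null_of_prod_null this).mono fun ζ hζ _ _ q hq => ?_
    have mm : Measurable fun U : List ℕ → I => {v : Vx ζ | U v.1 ≤ q} :=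
      measurable_set_iff.2 fun v => measurableSet_setOfPred.1
        (measurableSet_le (measurable_pi_apply v.1) measurable_const)
    rw [couple Subtype.val Subtype.val_injective, Measure.map_apply mm (perc_meas _ _)]
    exact measure_mono_null (fun U hU => fort (p := ⟨t, h2.le, h3⟩) hq hr hU) hζ
  refine (ae_all_iff.2 key).mono fun ζ h => le_csInf ⟨1, ⟨zero_le_one, le_rfl⟩, ?_⟩ ?_
  · change 0 < setBernoulli Set.univ 1 _
    rw [setBernoulli_one, Measure.dirac_apply_of_mem]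
    · exact zero_lt_one
    · exact fun v => ⟨0, trivial⟩
  · rintro q ⟨hq, h1⟩
    by_contra h2
    obtain ⟨t, t1, t2⟩ := exists_rat_btwn (not_le.1 h2)
    exact h1.ne' (h t t2 (hq.1.trans_lt t1) ⟨q, hq⟩ t1.le)

end Pool.Agent.Results.MP_12274d_pr.Sharp
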